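import Pool.Agent.H15.DP.Lw
import Pool.Agent.H15.Sig.Final

/-!
# The derivative: functions which are not close to `z + 1/z`
-/

open Complex Set Filter Topology MeasureTheory
open scoped ComplexConjugate Real

namespace Pool.Agent.H15.DP

open Pool.Agent.H15.Sig

variable {F : ℂ → ℂ} {b : ℕ → ℂ} {β : ℝ}

/-- coefficients of the remainder `e(u) = sum over n >= 2 of n b n u^(n+1)` -/
noncomputable def e3 (b : ℕ → ℂ) : ℕ → ℂ
  | (k + 3) => ((k + 2 : ℕ) : ℂ) * b (k + 2)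
  | _ => 0

/-- the remainder -/
noncomputable def EE (b : ℕ → ℂ) (β : ℝ) (u : ℂ) : ℂ := u * (deriv (pw b) u * u) - β * u ^ 2

theorem _root_.Pool.Agent.H15.Sig.Nrm.rep_EE (h : Nrm F b β) : Rep (PowerSeries.mk (e3 b)) (EE b β) := by
  intro u hu
  have h1 := (h.pertD.ser u hu).neg
  refine (hasSum_nat_add_iff' 3).1 ?_
  simp only [Finset.sum_range_succ, Finset.sum_range_zero, PowerSeries.coeff_mk]
  have e : EE b β u - (0 + e3 b 0 * u ^ 0 + e3 b 1 * u ^ 1 + e3 b 2 * u ^ 2) =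
      -((fun u => 1 - u * (deriv (pw b) u * u)) u - (1 + ((-β : ℝ) : ℂ) * u ^ 2)) := by
    simp only [e3, EE]; push_cast; ring
  rw [e]
  refine h1.congr_fun ?_ |> fun h => h
  intro k
  simp only [e3]; ring

theorem _root_.Pool.Agent.H15.Sig.Nrm.area2 (h : Nrm F b β) (n : ℕ) :
    ∑ k ∈ Finset.range n, ((k : ℝ) + 2) * ‖b (k + 2)‖ ^ 2 ≤ 1 - β ^ 2 := by
  have h1 := h.sig.area (n + 2)
  rw [Finset.sum_range_succ', Finset.sum_range_succ'] at h1
  have h2 : ‖b 1‖ ^ 2 = β ^ 2 := by rw [h.b1, norm_real, Real.norm_eq_abs, sq_abs]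
  simp only [zero_add, Nat.cast_zero, zero_mul, add_zero, Nat.cast_one, one_mul] at h1
  rw [h2] at h1
  have e : ∑ k ∈ Finset.range n, ((k + 1 + 1 : ℕ) : ℝ) * ‖b (k + 1 + 1)‖ ^ 2 =
      ∑ k ∈ Finset.range n, ((k : ℝ) + 2) * ‖b (k + 2)‖ ^ 2 := by
    refine Finset.sum_congr rfl fun k _ => ?_
    push_cast; ring
  rw [e] at h1
  linarith

theorem sum_geom_le {ρ : ℝ} (h0 : 0 ≤ ρ) (h1 : ρ < 1) (n : ℕ) :
    ∑ k ∈ Finset.range n, ((k : ℝ) + 2) * ρ ^ k ≤ (2 - ρ) / (1 - ρ) ^ 2 := by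
  have hn : ‖ρ‖ < 1 := by rw [Real.norm_eq_abs, abs_of_nonneg h0]; exact h1
  have h2 := (hasSum_coe_mul_geometric_of_norm_lt_one hn).add
    ((hasSum_geometric_of_norm_lt_one hn).mul_left 2)
  have h3 := sum_le_hasSum (Finset.range n) (fun k _ => by positivity) h2
  have e : ρ / (1 - ρ) ^ 2 + 2 * (1 - ρ)⁻¹ = (2 - ρ) / (1 - ρ) ^ 2 := by
    have : (1 - ρ) ≠ 0 := by linarith
    field_simp
    ring
  rw [e] at h3
  refine le_trans (le_of_eq ?_) h3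
  refine Finset.sum_congr rfl fun k _ => ?_
  ring

/-- bound for the remainder on the circle -/
theorem _root_.Pool.Agent.H15.Sig.Nrm.EE_le (h : Nrm F b β) {x : ℝ} (hx0 : 0 ≤ x) (hx1 : x ^ 2 < 1) {u : ℂ}
    (hu : ‖u‖ = x) :
    ‖EE b β u‖ ^ 2 ≤ (1 - β ^ 2) * ((x ^ 2) ^ 3 * ((2 - x ^ 2) / (1 - x ^ 2) ^ 2)) := by
  have hx : x < 1 := by nlinarith
  set B := (1 - β ^ 2) * ((x ^ 2) ^ 3 * ((2 - x ^ 2) / (1 - x ^ 2) ^ 2)) with hB
  have hser := (h.pertD.ser u (by rw [hu]; exact hx)).neg.tendsto_sum_nat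
  have e : -((fun u => 1 - u * (deriv (pw b) u * u)) u - (1 + ((-β : ℝ) : ℂ) * u ^ 2)) =
      EE b β u := by
    simp only [EE]; push_cast; ring
  rw [e] at hser
  have hT := (hser.norm.pow 2)
  refine le_of_tendsto' hT fun n => ?_
  have h1 : ‖∑ k ∈ Finset.range n, -(-(((k + 2 : ℕ) : ℂ)) * b (k + 2) * u ^ (k + 3))‖ ≤
      ∑ k ∈ Finset.range n, ((k : ℝ) + 2) * ‖b (k + 2)‖ * x ^ (k + 3) := by
    refine (norm_sum_le _ _).trans (le_of_eq ?_)
    refine Finset.sum_congr rfl fun k _ => ?_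
    rw [norm_neg, norm_mul, norm_mul, norm_neg, Complex.norm_natCast, norm_pow, hu]
    push_cast; ring
  have h2 := pow_le_pow_left₀ (norm_nonneg _) h1 2
  refine h2.trans ?_
  have h3 := Finset.sum_sq_le_sum_mul_sum_of_sq_eq_mul (Finset.range n)
    (f := fun k : ℕ => ((k : ℝ) + 2) * ‖b (k + 2)‖ ^ 2)
    (g := fun k : ℕ => ((k : ℝ) + 2) * (x ^ 2) ^ k * (x ^ 2) ^ 3)
    (r := fun k : ℕ => ((k : ℝ) + 2) * ‖b (k + 2)‖ * x ^ (k + 3))
    (fun k _ => by positivity) (fun k _ => by positivity) (fun k _ => by ring)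
  refine h3.trans ?_
  have h4 := h.area2 n
  have h5 : ∑ k ∈ Finset.range n, ((k : ℝ) + 2) * (x ^ 2) ^ k * (x ^ 2) ^ 3 ≤
      (x ^ 2) ^ 3 * ((2 - x ^ 2) / (1 - x ^ 2) ^ 2) := by
    rw [← Finset.sum_mul, mul_comm]
    exact mul_le_mul_of_nonneg_left (sum_geom_le (sq_nonneg x) hx1 n) (by positivity)
  exact mul_le_mul h4 h5 (Finset.sum_nonneg fun k _ => by positivity) h.del_nonneg

/-- mean square of the remainder -/
theorem _root_.Pool.Agent.H15.Sig.Nrm.int_EE_le (h : Nrm F b β) {x : ℝ} (hx0 : 0 ≤ x) (hx1 : x ^ 2 ≤ 2 / 3) :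
    ∫ t in (-π)..π, ‖EE b β (x * ec t)‖ ^ 2 ≤ 2 * π * (2 * (x ^ 2) ^ 3 * (1 - β ^ 2)) := by
  have hx : x < 1 := by nlinarith
  have h1 := h.rep_EE.parseval_self hx0 hx
  refine le_of_tendsto ((tendsto_add_atTop_iff_nat 3).2 h1.tendsto_sum_nat)
    (Eventually.of_forall fun n => ?_)
  rw [Finset.sum_range_succ', Finset.sum_range_succ', Finset.sum_range_succ']
  simp only [PowerSeries.coeff_mk, e3, norm_zero]
  have e : ∑ k ∈ Finset.range n, 2 * π * ‖((k + 2 : ℕ) : ℂ) * b (k + 2)‖ ^ 2 *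
      x ^ (2 * (k + 1 + 1 + 1)) ≤
      ∑ k ∈ Finset.range n, 2 * π * (2 * (x ^ 2) ^ 3 * (((k : ℝ) + 2) * ‖b (k + 2)‖ ^ 2)) := by
    refine Finset.sum_le_sum fun k _ => ?_
    rw [norm_mul, Complex.norm_natCast]
    have h2 : ((k : ℝ) + 2) * (x ^ 2) ^ k ≤ 2 := by
      have h3 := lin_le_geom k
      have h4 : (x ^ 2) ^ k ≤ (2 / 3) ^ k := pow_le_pow_left₀ (sq_nonneg x) hx1 k
      have h5 : ((k : ℝ) + 2) * (x ^ 2) ^ k ≤ 2 * (3 / 2) ^ k * (2 / 3) ^ k :=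
        mul_le_mul h3 h4 (by positivity) (by positivity)
      rw [mul_assoc, ← mul_pow] at h5
      norm_num at h5
      exact h5
    have h6 : 0 ≤ 2 * π * ((x ^ 2) ^ 3 * (((k : ℝ) + 2) * ‖b (k + 2)‖ ^ 2)) := by positivity
    have h7 := mul_le_mul_of_nonneg_left h2 h6
    push_cast
    calc 2 * π * (((k : ℝ) + 2) * ‖b (k + 2)‖) ^ 2 * x ^ (2 * (k + 1 + 1 + 1)) =
          2 * π * ((x ^ 2) ^ 3 * (((k : ℝ) + 2) * ‖b (k + 2)‖ ^ 2)) *
            (((k : ℝ) + 2) * (x ^ 2) ^ k) := by ring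
      _ ≤ _ := h7
      _ = _ := by ring
  have h2 := h.area2 n
  have h3 : ∑ k ∈ Finset.range n,
      2 * π * (2 * (x ^ 2) ^ 3 * (((k : ℝ) + 2) * ‖b (k + 2)‖ ^ 2)) ≤
      2 * π * (2 * (x ^ 2) ^ 3 * (1 - β ^ 2)) := by
    rw [← Finset.mul_sum, ← Finset.mul_sum]
    have : 0 ≤ 2 * π * (2 * (x ^ 2) ^ 3) := by positivity
    nlinarith [mul_le_mul_of_nonneg_left h2 this]
  have h4 := e.trans h3
  norm_num at h4 ⊢
  exact h4

theorem int_one_sub_sq (p : ℝ) {x : ℝ} (hx1 : x ^ 2 < 1) :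
    ∫ t in (-π)..π, ‖1 - ((x : ℂ) * ec t) ^ 2‖ ^ (2 * p) = Mo p (x ^ 2) := by
  have hDw := SF_cos.int_Dw (p := p) (y := x ^ 2) (by positivity) hx1
  rw [← hDw]
  apply intervalIntegral.integral_congr
  intro t _
  simp only
  have e : 1 - ((x : ℂ) * ec t) ^ 2 = 1 + ((-1:ℝ) : ℂ) * ((x : ℂ) * ec t) ^ 2 := by
    push_cast; ring
  have hS := S0_cos 1 x t
  rw [one_mul (x ^ 2)] at hS
  rw [e, ← hS, ← Real.rpow_natCast, ← Real.rpow_mul (norm_nonneg _)]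
  congr 1

/-- **Case A**: functions which are not close to `z + 1/z` -/
theorem _root_.Pool.Agent.H15.Sig.Nrm.caseA (h : Nrm F b β) {p x : ℝ} (hp : 1 / 2 ≤ p)
    (hx0 : 0 < x) (hx1 : x ^ 2 ≤ 2 / 3)
    (ha : x ^ 2 * (2 - x ^ 2) / (1 - x ^ 2) ^ 2 * (1 + β) ≤ 1 - β) (hb : β < 1) :
    ∫ t in (-π)..π, ‖1 - (x * ec t) * (deriv (pw b) (x * ec t) * (x * ec t))‖ ^ (2 * p) <
      Mo p (x ^ 2) := by
  have hx : x < 1 := by nlinarith
  have hx2 : 0 < x ^ 2 := by positivity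
  have hx21 : x ^ 2 < 1 := by linarith
  have hβ0 := h.nn
  set a : ℝ := 1 - β with hadef
  have ha0 : 0 < a := by rw [hadef]; linarith
  have ha1 : a ≤ 1 := by rw [hadef]; linarith
  have hb2 : 1 - β ^ 2 = a * (1 + β) := by rw [hadef]; ring
  have hβ1 : 0 < 1 + β := by linarith
  have haρ : 0 < a * x ^ 2 := by positivity
  set w : ℝ → ℂ := fun t => EE b β (x * ec t) / ((a * x ^ 2 : ℝ) : ℂ) with hw
  have hwc : Continuous w :=
    (h.rep_EE.continuous_circle hx0.le hx).div_const _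
  have hw0 : ∀ k : ℕ, 1 ≤ k → ∫ t in (-π)..π, w t ^ k = 0 := by
    intro k hk
    have h1 := (h.rep_EE.pow k).coeff_integral hx0.le hx 0
    have h2 : PowerSeries.coeff 0 (PowerSeries.mk (e3 b) ^ k) = 0 := by
      rw [PowerSeries.coeff_zero_eq_constantCoeff_apply, map_pow,
        ← PowerSeries.coeff_zero_eq_constantCoeff_apply, PowerSeries.coeff_mk]
      simp only [e3]
      exact zero_pow (by omega)
    rw [h2] at h1
    simp only [pow_zero, map_one, one_mul, zero_mul, mul_zero] at h1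
    simp only [hw, div_pow]
    rw [intervalIntegral.integral_div, h1, zero_div]
  have hwn : ∀ t, ‖w t‖ ^ 2 = ‖EE b β (x * ec t)‖ ^ 2 / (a * x ^ 2) ^ 2 := by
    intro t
    simp only [hw]
    rw [norm_div, div_pow, norm_real, Real.norm_eq_abs, sq_abs]
  have hw1 : ∀ t, ‖w t‖ ≤ 1 := by
    intro t
    have h1 := h.EE_le hx0.le hx21 (norm_mul_ec hx0.le t)
    have h2 : (1 - β ^ 2) * ((x ^ 2) ^ 3 * ((2 - x ^ 2) / (1 - x ^ 2) ^ 2)) ≤ (a * x ^ 2) ^ 2 := by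
      rw [hb2]
      have h3 := mul_le_mul_of_nonneg_left ha (by positivity : 0 ≤ a * (x ^ 2) ^ 2)
      calc a * (1 + β) * ((x ^ 2) ^ 3 * ((2 - x ^ 2) / (1 - x ^ 2) ^ 2)) =
            a * (x ^ 2) ^ 2 * (x ^ 2 * (2 - x ^ 2) / (1 - x ^ 2) ^ 2 * (1 + β)) := by ring
        _ ≤ _ := h3
        _ = _ := by ring
    have h4 : ‖w t‖ ^ 2 ≤ 1 := by
      rw [hwn, div_le_one (by positivity)]
      exact h1.trans h2
    exact (sq_le_one_iff₀ (norm_nonneg _)).1 h4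
  have hgap : 0 < ∫ t in (-π)..π, (1 - ‖w t‖ ^ 2) := by
    have hwc2 : Continuous fun t => ‖w t‖ ^ 2 := hwc.norm.pow 2
    rw [intervalIntegral.integral_sub (continuous_const.intervalIntegrable _ _)
      (hwc2.intervalIntegrable _ _)]
    simp_rw [hwn]
    rw [intervalIntegral.integral_const, smul_eq_mul, intervalIntegral.integral_div]
    have h1 := h.int_EE_le hx0.le hx1
    have h2 : 2 * π * (2 * (x ^ 2) ^ 3 * (1 - β ^ 2)) < 2 * π * (a * x ^ 2) ^ 2 := by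
      have h3 : 2 * (x ^ 2) ^ 3 * (1 - β ^ 2) < (a * x ^ 2) ^ 2 := by
        rw [hb2]
        have h4 : 2 * x ^ 2 < x ^ 2 * (2 - x ^ 2) / (1 - x ^ 2) ^ 2 := by
          rw [lt_div_iff₀ (by have : 0 < 1 - x ^ 2 := by linarith
                              positivity)]
          have h5 : 2 * (1 - x ^ 2) ^ 2 < 2 - x ^ 2 := by nlinarith
          nlinarith
        have h5 : 2 * x ^ 2 * (1 + β) < a :=
          (mul_lt_mul_of_pos_right h4 hβ1).trans_le ha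
        have h6 := mul_lt_mul_of_pos_left h5 (by positivity : 0 < a * (x ^ 2) ^ 2)
        calc 2 * (x ^ 2) ^ 3 * (a * (1 + β)) = a * (x ^ 2) ^ 2 * (2 * x ^ 2 * (1 + β)) := by ring
          _ < _ := h6
          _ = _ := by ring
      exact mul_lt_mul_of_pos_left h3 (by positivity)
    have h7 : (∫ t in (-π)..π, ‖EE b β (x * ec t)‖ ^ 2) / (a * x ^ 2) ^ 2 < 2 * π := by
      rw [div_lt_iff₀ (by positivity)]
      exact h1.trans_lt h2
    linarith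
  have hL := int_binom_gap hwc hw0 hw1 (p := p) (ρ := x ^ 2) hx2.le hx21
  have hp0 : 0 < p := by linarith
  have hL2 : ∫ t in (-π)..π, ‖1 - ((x ^ 2 : ℝ) : ℂ) * w t‖ ^ (2 * p) < Mo p (x ^ 2) := by
    have : 0 < p ^ 2 * (x ^ 2) ^ 2 / 2 * ∫ t in (-π)..π, (1 - ‖w t‖ ^ 2) := by positivity
    linarith
  have hc1 : Continuous fun t : ℝ => ‖1 - ((x ^ 2 : ℝ) : ℂ) * w t‖ ^ (2 * p) := by
    apply Continuous.rpow_const (by fun_prop)
    intro t; right; linarith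
  have hc2 : Continuous fun t : ℝ => ‖1 - ((x : ℂ) * ec t) ^ 2‖ ^ (2 * p) := by
    have := continuous_ec
    apply Continuous.rpow_const (by fun_prop)
    intro t; right; linarith
  have hEc : Continuous fun t : ℝ => EE b β (x * ec t) :=
    h.rep_EE.continuous_circle hx0.le hx
  have hD : ∀ t, 1 - (x * ec t) * (deriv (pw b) (x * ec t) * (x * ec t)) =
      ((1 - a : ℝ) : ℂ) * (1 - ((x : ℂ) * ec t) ^ 2) +
        ((a : ℝ) : ℂ) * (1 - ((x ^ 2 : ℝ) : ℂ) * w t) := by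
    intro t
    have hne : ((a * x ^ 2 : ℝ) : ℂ) ≠ 0 := by exact_mod_cast haρ.ne'
    have e1 : ((a : ℝ) : ℂ) * (((x ^ 2 : ℝ) : ℂ) * w t) = EE b β (x * ec t) := by
      simp only [hw]
      rw [← mul_assoc, ← ofReal_mul, mul_div_cancel₀ _ hne]
    have e2 : ((a : ℝ) : ℂ) * (1 - ((x ^ 2 : ℝ) : ℂ) * w t) = (a : ℂ) - EE b β (x * ec t) := by
      rw [mul_sub, mul_one, e1]
    rw [e2, hadef]
    simp only [EE]
    push_cast; ring
  have hpt : ∀ t, ‖1 - (x * ec t) * (deriv (pw b) (x * ec t) * (x * ec t))‖ ^ (2 * p) ≤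
      (1 - a) * ‖1 - ((x : ℂ) * ec t) ^ 2‖ ^ (2 * p) +
        a * ‖1 - ((x ^ 2 : ℝ) : ℂ) * w t‖ ^ (2 * p) := by
    intro t
    rw [hD]
    have h1 : ‖((1 - a : ℝ) : ℂ) * (1 - ((x : ℂ) * ec t) ^ 2) +
        ((a : ℝ) : ℂ) * (1 - ((x ^ 2 : ℝ) : ℂ) * w t)‖ ≤
        (1 - a) * ‖1 - ((x : ℂ) * ec t) ^ 2‖ + a * ‖1 - ((x ^ 2 : ℝ) : ℂ) * w t‖ := by
      refine (norm_add_le _ _).trans (le_of_eq ?_)
      rw [norm_mul, norm_mul, norm_real, norm_real, Real.norm_eq_abs, Real.norm_eq_abs,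
        abs_of_nonneg (by linarith : 0 ≤ 1 - a), abs_of_pos ha0]
    refine (Real.rpow_le_rpow (norm_nonneg _) h1 (by linarith)).trans ?_
    have h2 := ((convexOn_rpow (p := 2 * p) (by linarith)).2
      (mem_Ici.2 (norm_nonneg (1 - ((x : ℂ) * ec t) ^ 2)))
      (mem_Ici.2 (norm_nonneg (1 - ((x ^ 2 : ℝ) : ℂ) * w t))))
      (by linarith : (0:ℝ) ≤ 1 - a) ha0.le (by ring : (1 - a) + a = 1)
    simpa only [smul_eq_mul] using h2
  have hDc : Continuous fun t : ℝ =>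
      ‖1 - (x * ec t) * (deriv (pw b) (x * ec t) * (x * ec t))‖ ^ (2 * p) := by
    have e : (fun t : ℝ => 1 - (x * ec t) * (deriv (pw b) (x * ec t) * (x * ec t))) =
        fun t : ℝ => 1 - ((β : ℂ) * ((x : ℂ) * ec t) ^ 2 + EE b β (x * ec t)) := by
      funext t; simp only [EE]; ring
    have hcc : Continuous fun t : ℝ =>
        1 - (x * ec t) * (deriv (pw b) (x * ec t) * (x * ec t)) := by
      rw [e]
      have := continuous_ec
      fun_prop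
    apply hcc.norm.rpow_const
    intro t; right; linarith
  have hc3 : Continuous fun t : ℝ => (1 - a) * ‖1 - ((x : ℂ) * ec t) ^ 2‖ ^ (2 * p) :=
    continuous_const.mul hc2
  have hc4 : Continuous fun t : ℝ => a * ‖1 - ((x ^ 2 : ℝ) : ℂ) * w t‖ ^ (2 * p) :=
    continuous_const.mul hc1
  have hc5 : Continuous fun t : ℝ => (1 - a) * ‖1 - ((x : ℂ) * ec t) ^ 2‖ ^ (2 * p) +
      a * ‖1 - ((x ^ 2 : ℝ) : ℂ) * w t‖ ^ (2 * p) := hc3.add hc4
  have hI := intervalIntegral.integral_mono_on (μ := volume) (a := -π) (b := π)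
    (by linarith [Real.pi_pos])
    (hDc.intervalIntegrable _ _) (hc5.intervalIntegrable _ _) (fun t _ => hpt t)
  rw [intervalIntegral.integral_add (hc3.intervalIntegrable _ _) (hc4.intervalIntegrable _ _),
    intervalIntegral.integral_const_mul, intervalIntegral.integral_const_mul,
    int_one_sub_sq p hx21] at hI
  have h3 := mul_lt_mul_of_pos_left hL2 ha0
  linarith

end Pool.Agent.H15.DP
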