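import Pool.Agent.H15.DP.Of
import Pool.Agent.H15.DP.CaseA

/-!
# The derivative: `2 <= r`, `0 < lam <= r^4/16`
-/

open Complex Set Filter Topology MeasureTheory
open scoped ComplexConjugate Real

namespace Pool.Agent.H15.DP

open Pool.Agent.H15.Sig

/-- for `β = 1` the function is `z + 1/z`; only `β < 1` has to be considered -/
theorem IntD_of_lt {p x : ℝ} (hx0 : 0 ≤ x) (hx1 : x < 1)
    (H : ∀ (F : ℂ → ℂ) (b : ℕ → ℂ) (β : ℝ), Nrm F b β → β < 1 →
      ∫ t in (-π)..π, ‖1 - (x * ec t) * (deriv (pw b) (x * ec t) * (x * ec t))‖ ^ (2 * p) <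
      Mo p (x ^ 2)) : IntD p x := by
  intro F b β h
  refine ⟨?_, H F b β h⟩
  rcases lt_or_ge β 1 with h1 | h1
  · exact (H F b β h h1).le
  · have hβ : β = 1 := le_antisymm h.beta_le h1
    have hx2 : x ^ 2 < 1 := by nlinarith
    have h2 : ∀ t : ℝ, 1 - (x * ec t) * (deriv (pw b) (x * ec t) * (x * ec t)) =
        1 - ((x : ℂ) * ec t) ^ 2 := by
      intro t
      have h3 := h.EE_le hx0 hx2 (norm_mul_ec hx0 t)
      rw [hβ] at h3
      norm_num at h3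
      have h5 : EE b 1 ((x : ℂ) * ec t) = 0 := h3
      unfold EE at h5
      push_cast at h5
      linear_combination -h5
    simp_rw [h2]
    rw [int_one_sub_sq p hx2]

/-- the final statement from the two regimes `p <= 1` and `p >= 1` -/
theorem sigma_deriv4_of
    (H1 : ∀ p x : ℝ, 0 < p → p ≤ 1 → 0 < x → x ≤ 1 / 2 → p * x ^ 4 ≤ 1 / 32 → IntD p x)
    (H3 : ∀ p x : ℝ, 1 ≤ p → 0 < x → x ≤ 1 / 2 → p * x ^ 4 ≤ 1 / 32 → IntD p x)
    {lam r : ℝ} (hl : 0 < lam) (hr : 2 ≤ r) (hlr : lam ≤ r ^ 4 / 16) :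
    IsGreatest {x : ℝ | ∃ F : ℂ → ℂ, ClassSigma F ∧ x = integralMean lam r (deriv F)}
      (integralMean lam r (fun z => 1 - (z ^ 2)⁻¹)) ∧
    ∀ F : ℂ → ℂ, ClassSigma F →
      (integralMean lam r (deriv F) = integralMean lam r (fun z => 1 - (z ^ 2)⁻¹) ↔
        ∃ c : ℂ, ‖c‖ = 1 ∧ ∀ z : ℂ, 1 < ‖z‖ → F z = z + c / z) := by
  have hr0 : 0 < r := by linarith
  have hx0 : 0 < r⁻¹ := inv_pos.2 hr0
  have hx : r⁻¹ ≤ 1 / 2 := by
    rw [one_div]; exact inv_anti₀ (by norm_num) hr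
  have hpx : lam / 2 * (r⁻¹) ^ 4 ≤ 1 / 32 := by
    rw [inv_pow, ← div_eq_mul_inv, div_le_iff₀ (by positivity)]
    linarith
  apply sigma_deriv_of hl (by linarith)
  rcases le_total (lam / 2) 1 with h | h
  · exact H1 _ _ (by positivity) h hx0 hx hpx
  · exact H3 _ _ h hx0 hx hpx

end Pool.Agent.H15.DP
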