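import Pool.Agent.H15.DP.Fin
import Pool.Agent.H12.DP.Dl

/-!
# The derivative: `2 <= r`, `0 < lam <= max (2, r^4/16)`
-/

open Complex Set Filter Topology MeasureTheory
open scoped ComplexConjugate Real

namespace Pool.Agent.H15.DP

open Pool.Agent.H15.Sig

/-- the final statement; `H1` is the regime `p <= 1` -/
theorem sigma_deriv5_of (H1 : ∀ p x : ℝ, 0 < p → p ≤ 1 → 0 < x → x ≤ 1 / 2 → IntD p x)
    {lam r : ℝ} (hl : 0 < lam) (hr : 2 ≤ r) (hlr : lam ≤ 2 ∨ lam ≤ r ^ 4 / 16) :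
    IsGreatest {x : ℝ | ∃ F : ℂ → ℂ, ClassSigma F ∧ x = integralMean lam r (deriv F)}
      (integralMean lam r (fun z => 1 - (z ^ 2)⁻¹)) ∧
    ∀ F : ℂ → ℂ, ClassSigma F →
      (integralMean lam r (deriv F) = integralMean lam r (fun z => 1 - (z ^ 2)⁻¹) ↔
        ∃ c : ℂ, ‖c‖ = 1 ∧ ∀ z : ℂ, 1 < ‖z‖ → F z = z + c / z) := by
  have hr0 : 0 < r := by linarith
  have hx0 : 0 < r⁻¹ := inv_pos.2 hr0
  have hx : r⁻¹ ≤ 1 / 2 := by
    rw [one_div]; exact inv_anti₀ (by norm_num) hr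
  apply sigma_deriv_of hl (by linarith)
  rcases le_total (lam / 2) 1 with h | h
  · exact H1 _ _ (by positivity) h hx0 hx
  · rcases hlr with h2 | h2
    · have h3 : lam / 2 ≤ 1 := by linarith
      exact H1 _ _ (by positivity) h3 hx0 hx
    · have hpx : lam / 2 * (r⁻¹) ^ 4 ≤ 1 / 32 := by
        rw [inv_pow, ← div_eq_mul_inv, div_le_iff₀ (by positivity)]
        linarith
      exact Pool.Agent.H12.DP.intD_three h hx0 hx hpx

end Pool.Agent.H15.DP
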