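import Pool.Agent.H15.Sig.Main

/-!
# Littlewood's subordination principle for binomial series, with a gap
-/

open Complex Set Filter Topology MeasureTheory
open scoped ComplexConjugate Real

namespace Pool.Agent.H15.DP

open Pool.Agent.H15.Sig

theorem int_const_add (c : ℂ) {g : ℝ → ℂ} (hg : Continuous g)
    (h0 : ∫ t in (-π)..π, g t = 0) :
    ∫ t in (-π)..π, ‖c + g t‖ ^ 2 = 2 * π * ‖c‖ ^ 2 + ∫ t in (-π)..π, ‖g t‖ ^ 2 := by
  have e : ∀ t, ‖c + g t‖ ^ 2 = (‖c‖ ^ 2 + ‖g t‖ ^ 2) + 2 * (conj c * g t).re := by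
    intro t
    rw [← normSq_eq_norm_sq, ← normSq_eq_norm_sq, ← normSq_eq_norm_sq, normSq_add]
    congr 2
    rw [← conj_re]
    simp
  simp_rw [e]
  have hre : ∫ t in (-π)..π, (conj c * g t).re = 0 := by
    have h1 := Complex.reCLM.intervalIntegral_comp_comm (μ := volume) (a := -π) (b := π)
      (f := fun t => conj c * g t) ((continuous_const.mul hg).intervalIntegrable _ _)
    simp only [Complex.reCLM_apply] at h1
    rw [h1, intervalIntegral.integral_const_mul, h0, mul_zero, zero_re]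
  rw [intervalIntegral.integral_add, intervalIntegral.integral_add,
    intervalIntegral.integral_const_mul, hre, intervalIntegral.integral_const, smul_eq_mul]
  · ring
  · exact continuous_const.intervalIntegrable _ _
  · exact (hg.norm.pow 2).intervalIntegrable _ _
  · exact (continuous_const.add (hg.norm.pow 2)).intervalIntegrable _ _
  · exact (continuous_const.mul (continuous_re.comp
      (continuous_const.mul hg))).intervalIntegrable _ _

/-- partial sums of a power series -/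
noncomputable def pl (c : ℕ → ℂ) (n : ℕ) (w : ℂ) : ℂ := ∑ k ∈ Finset.range n, c k * w ^ k

theorem pl_succ (c : ℕ → ℂ) (n : ℕ) (w : ℂ) :
    pl c (n + 1) w = c 0 + w * pl (fun k => c (k + 1)) n w := by
  unfold pl
  rw [Finset.sum_range_succ', Finset.mul_sum, add_comm]
  congr 1
  · simp
  · refine Finset.sum_congr rfl fun k _ => ?_
    rw [pow_succ]; ring

variable {w : ℝ → ℂ}

theorem cont_pl (hw : Continuous w) (c : ℕ → ℂ) (n : ℕ) : Continuous fun t => pl c n (w t) := by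
  unfold pl
  fun_prop

theorem int_mul_pl (hw : Continuous w) (h0 : ∀ k : ℕ, 1 ≤ k → ∫ t in (-π)..π, w t ^ k = 0)
    (c : ℕ → ℂ) (n : ℕ) : ∫ t in (-π)..π, w t * pl c n (w t) = 0 := by
  unfold pl
  simp_rw [Finset.mul_sum]
  rw [intervalIntegral.integral_finsetSum]
  · apply Finset.sum_eq_zero
    intro k _
    have e : ∀ t, w t * (c k * w t ^ k) = c k * w t ^ (k + 1) := by intro t; ring
    simp_rw [e]
    rw [intervalIntegral.integral_const_mul, h0 (k + 1) (by omega), mul_zero]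
  · intro k _
    apply Continuous.intervalIntegrable
    fun_prop

theorem int_pl_succ (hw : Continuous w) (h0 : ∀ k : ℕ, 1 ≤ k → ∫ t in (-π)..π, w t ^ k = 0)
    (c : ℕ → ℂ) (n : ℕ) : ∫ t in (-π)..π, ‖pl c (n + 1) (w t)‖ ^ 2 =
      2 * π * ‖c 0‖ ^ 2 + (∫ t in (-π)..π, ‖pl (fun k => c (k + 1)) n (w t)‖ ^ 2) -
        ∫ t in (-π)..π, (1 - ‖w t‖ ^ 2) * ‖pl (fun k => c (k + 1)) n (w t)‖ ^ 2 := by
  simp_rw [pl_succ]
  have hc := cont_pl hw (fun k => c (k + 1)) n
  have hwc : Continuous fun t => w t * pl (fun k => c (k + 1)) n (w t) := hw.mul hc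
  rw [int_const_add (c 0) hwc (int_mul_pl hw h0 _ n), add_sub_assoc,
    ← intervalIntegral.integral_sub]
  · congr 2
    funext t
    rw [norm_mul]; ring
  · exact (hc.norm.pow 2).intervalIntegrable _ _
  · apply Continuous.intervalIntegrable
    fun_prop

theorem int_pl_le (hw : Continuous w) (h0 : ∀ k : ℕ, 1 ≤ k → ∫ t in (-π)..π, w t ^ k = 0)
    (h1 : ∀ t, ‖w t‖ ≤ 1) : ∀ (n : ℕ) (c : ℕ → ℂ),
    ∫ t in (-π)..π, ‖pl c n (w t)‖ ^ 2 ≤ 2 * π * ∑ k ∈ Finset.range n, ‖c k‖ ^ 2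
  | 0, c => by simp [pl]
  | n + 1, c => by
    rw [int_pl_succ hw h0, Finset.sum_range_succ']
    have h2 := int_pl_le hw h0 h1 n (fun k => c (k + 1))
    have h3 : 0 ≤ ∫ t in (-π)..π, (1 - ‖w t‖ ^ 2) * ‖pl (fun k => c (k + 1)) n (w t)‖ ^ 2 := by
      apply intervalIntegral.integral_nonneg (by linarith [Real.pi_pos])
      intro t _
      have := h1 t
      have h4 : ‖w t‖ ^ 2 ≤ 1 := pow_le_one₀ (norm_nonneg _) this
      exact mul_nonneg (by linarith) (by positivity)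
    linarith

theorem int_pl_gap (hw : Continuous w) (h0 : ∀ k : ℕ, 1 ≤ k → ∫ t in (-π)..π, w t ^ k = 0)
    (h1 : ∀ t, ‖w t‖ ≤ 1) (n : ℕ) (c : ℕ → ℂ) :
    ∫ t in (-π)..π, ‖pl c (n + 2) (w t)‖ ^ 2 ≤ 2 * π * ∑ k ∈ Finset.range (n + 2), ‖c k‖ ^ 2 -
      ‖c 1‖ ^ 2 / 2 * ∫ t in (-π)..π, (1 - ‖w t‖ ^ 2) := by
  have e1 := int_pl_succ hw h0 c (n + 1)
  have e2 := int_pl_succ hw h0 (fun k => c (k + 1)) n
  have e3 := int_pl_le hw h0 h1 n (fun k => c (k + 1 + 1))
  have hc1 := cont_pl hw (fun k => c (k + 1)) (n + 1)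
  have hc2 := cont_pl hw (fun k => c (k + 1 + 1)) n
  have e4 : ‖c 1‖ ^ 2 / 2 * ∫ t in (-π)..π, (1 - ‖w t‖ ^ 2) ≤
      (∫ t in (-π)..π, (1 - ‖w t‖ ^ 2) * ‖pl (fun k => c (k + 1)) (n + 1) (w t)‖ ^ 2) +
      ∫ t in (-π)..π, (1 - ‖w t‖ ^ 2) * ‖pl (fun k => c (k + 1 + 1)) n (w t)‖ ^ 2 := by
    rw [← intervalIntegral.integral_add, ← intervalIntegral.integral_const_mul]
    · apply intervalIntegral.integral_mono_on (by linarith [Real.pi_pos])
      · apply Continuous.intervalIntegrable; fun_prop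
      · apply Continuous.intervalIntegrable; fun_prop
      · intro t _
        have h4 : ‖w t‖ ^ 2 ≤ 1 := pow_le_one₀ (norm_nonneg _) (h1 t)
        have h5 : pl (fun k => c (k + 1)) (n + 1) (w t) =
            c 1 + w t * pl (fun k => c (k + 1 + 1)) n (w t) := by
          rw [pl_succ]
        have h6 : c 1 = pl (fun k => c (k + 1)) (n + 1) (w t) +
            -(w t * pl (fun k => c (k + 1 + 1)) n (w t)) := by rw [h5]; ring
        have h7 : ‖c 1‖ ≤ ‖pl (fun k => c (k + 1)) (n + 1) (w t)‖ +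
            ‖pl (fun k => c (k + 1 + 1)) n (w t)‖ := by
          rw [h6]
          refine (norm_add_le _ _).trans ?_
          rw [norm_neg, norm_mul]
          have := mul_le_mul_of_nonneg_right (h1 t)
            (norm_nonneg (pl (fun k => c (k + 1 + 1)) n (w t)))
          linarith
        have h8 : ‖c 1‖ ^ 2 / 2 ≤ ‖pl (fun k => c (k + 1)) (n + 1) (w t)‖ ^ 2 +
            ‖pl (fun k => c (k + 1 + 1)) n (w t)‖ ^ 2 := by
          have h9 := pow_le_pow_left₀ (norm_nonneg _) h7 2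
          nlinarith [sq_nonneg (‖pl (fun k => c (k + 1)) (n + 1) (w t)‖ -
            ‖pl (fun k => c (k + 1 + 1)) n (w t)‖)]
        have h9 := mul_le_mul_of_nonneg_left h8 (sub_nonneg.2 h4)
        linarith
    · apply Continuous.intervalIntegrable; fun_prop
    · apply Continuous.intervalIntegrable; fun_prop
  rw [Finset.sum_range_succ', Finset.sum_range_succ']
  simp only [zero_add] at e1 e2 e3 ⊢
  linarith

/-- Littlewood for the binomial series -/
theorem int_binom_gap (hw : Continuous w) (h0 : ∀ k : ℕ, 1 ≤ k → ∫ t in (-π)..π, w t ^ k = 0)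
    (h1 : ∀ t, ‖w t‖ ≤ 1) {p ρ : ℝ} (hρ0 : 0 ≤ ρ) (hρ1 : ρ < 1) :
    ∫ t in (-π)..π, ‖1 - (ρ : ℂ) * w t‖ ^ (2 * p) ≤ Mo p ρ -
      p ^ 2 * ρ ^ 2 / 2 * ∫ t in (-π)..π, (1 - ‖w t‖ ^ 2) := by
  set c : ℕ → ℂ := fun k => PowerSeries.coeff k (bps p) * (-(ρ : ℂ)) ^ k with hc
  have hnc : ∀ k, ‖c k‖ = ‖PowerSeries.coeff k (bps p)‖ * ρ ^ k := by
    intro k
    rw [hc]
    simp only
    rw [norm_mul, norm_pow, norm_neg, norm_real, Real.norm_eq_abs, abs_of_nonneg hρ0]
  have hsum : Summable fun k => ‖c k‖ := by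
    simp_rw [hnc]
    exact (rep_bps p).norm_summable hρ0 hρ1
  have hlim : ∀ t, Tendsto (fun n => pl c n (w t)) atTop
      (𝓝 ((1 - (ρ : ℂ) * w t) ^ (p : ℂ))) := by
    intro t
    have hu : ‖-(ρ : ℂ) * w t‖ < 1 := by
      rw [norm_mul, norm_neg, norm_real, Real.norm_eq_abs, abs_of_nonneg hρ0]
      have := mul_le_mul_of_nonneg_left (h1 t) hρ0
      linarith
    have h2 := (rep_bps p _ hu).tendsto_sum_nat
    have e : (1 : ℂ) + -(ρ : ℂ) * w t = 1 - (ρ : ℂ) * w t := by ring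
    simp only [e] at h2
    refine h2.congr fun n => ?_
    unfold pl
    refine Finset.sum_congr rfl fun k _ => ?_
    rw [hc]
    simp only
    rw [mul_pow]; ring
  have hb : ∀ n t, ‖pl c n (w t)‖ ≤ ∑' k, ‖c k‖ := by
    intro n t
    unfold pl
    refine (norm_sum_le _ _).trans ?_
    refine (Finset.sum_le_sum fun k _ => ?_).trans (hsum.sum_le_tsum _ fun k _ => norm_nonneg _)
    rw [norm_mul, norm_pow]
    exact mul_le_of_le_one_right (norm_nonneg _) (pow_le_one₀ (norm_nonneg _) (h1 t))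
  have hint : Tendsto (fun n => ∫ t in (-π)..π, ‖pl c n (w t)‖ ^ 2) atTop
      (𝓝 (∫ t in (-π)..π, ‖(1 - (ρ : ℂ) * w t) ^ (p : ℂ)‖ ^ 2)) := by
    apply intervalIntegral.tendsto_integral_filter_of_dominated_convergence
      (fun _ => (∑' k, ‖c k‖) ^ 2)
    · exact Eventually.of_forall fun n =>
        ((cont_pl hw c n).norm.pow 2).aestronglyMeasurable
    · refine Eventually.of_forall fun n => Eventually.of_forall fun t _ => ?_
      rw [Real.norm_eq_abs, abs_of_nonneg (by positivity)]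
      exact pow_le_pow_left₀ (norm_nonneg _) (hb n t) 2
    · exact continuous_const.intervalIntegrable _ _
    · exact Eventually.of_forall fun t _ => ((hlim t).norm.pow 2)
  have hS : HasSum (fun k => 2 * π * ‖c k‖ ^ 2) (Mo p ρ) := by
    refine (Mo_hasSum p hρ0 hρ1).congr_fun ?_ |> fun h => h
    intro k
    rw [hnc, mul_pow, ← pow_mul, mul_comm k 2]
    unfold bps
    rw [PowerSeries.coeff_mk]; ring
  have hc1 : ‖c 1‖ ^ 2 = p ^ 2 * ρ ^ 2 := by
    rw [hnc, mul_pow]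
    unfold bps
    rw [PowerSeries.coeff_mk, Ring.choose_one_right, norm_real, Real.norm_eq_abs, sq_abs, pow_one]
  have hfin : ∀ n, ∫ t in (-π)..π, ‖pl c (n + 2) (w t)‖ ^ 2 ≤ Mo p ρ -
      p ^ 2 * ρ ^ 2 / 2 * ∫ t in (-π)..π, (1 - ‖w t‖ ^ 2) := by
    intro n
    refine (int_pl_gap hw h0 h1 n c).trans ?_
    rw [hc1]
    have h3 := sum_le_hasSum (Finset.range (n + 2)) (fun k _ => by positivity) hS
    rw [← Finset.mul_sum] at h3
    linarith
  have hT := le_of_tendsto' ((tendsto_add_atTop_iff_nat 2).2 hint) hfin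
  refine le_trans (le_of_eq ?_) hT
  congr 1
  funext t
  rw [norm_cpow_real, ← Real.rpow_natCast, ← Real.rpow_mul (norm_nonneg _), mul_comm 2 p]
  norm_num

end Pool.Agent.H15.DP
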