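import Pool.Agent.H15.Sig.Final

/-!
# From the integral inequality for normalised functions to the class Sigma
-/

open Complex Set Filter Topology MeasureTheory
open scoped ComplexConjugate Real

namespace Pool.Agent.H15.DP

open Pool.Agent.H15.Sig

/-- the inequality (with uniqueness) for the derivatives of all normalised functions on the
circle of radius `x = 1/r`, exponent `2 p` -/
def IntD (p x : ℝ) : Prop :=
  ∀ (F : ℂ → ℂ) (b : ℕ → ℂ) (β : ℝ), Nrm F b β →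
    ∫ t in (-π)..π, ‖1 - (x * ec t) * (deriv (pw b) (x * ec t) * (x * ec t))‖ ^ (2 * p) ≤
      Mo p (x ^ 2) ∧
    (β < 1 →
      ∫ t in (-π)..π, ‖1 - (x * ec t) * (deriv (pw b) (x * ec t) * (x * ec t))‖ ^ (2 * p) <
      Mo p (x ^ 2))

/-- the same for the functions themselves -/
def IntF (p x : ℝ) : Prop :=
  ∀ (F : ℂ → ℂ) (b : ℕ → ℂ) (β : ℝ), Nrm F b β →
    ∫ t in (-π)..π, ‖1 + (x * ec t) * pw b (x * ec t)‖ ^ (2 * p) ≤ Mo p (x ^ 2) ∧
    (β < 1 →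
      ∫ t in (-π)..π, ‖1 + (x * ec t) * pw b (x * ec t)‖ ^ (2 * p) < Mo p (x ^ 2))

variable {F : ℂ → ℂ} {b : ℕ → ℂ}

theorem IsSig_deriv_le_of (h : IsSig F b) {lam r : ℝ} (hr : 1 < r)
    (H : IntD (lam / 2) r⁻¹) :
    ∫ t in (-π)..π, ‖deriv F (r * exp (t * I))‖ ^ lam ≤ Mo (lam / 2) ((r⁻¹) ^ 2) ∧
    (‖b 1‖ < 1 →
      ∫ t in (-π)..π, ‖deriv F (r * exp (t * I))‖ ^ lam < Mo (lam / 2) ((r⁻¹) ^ 2)) := by
  obtain ⟨φ, hN⟩ := exists_rot h
  have hr0 : 0 < r := by linarith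
  have h1 := H _ _ _ hN
  rw [show 2 * (lam / 2) = lam by ring] at h1
  have h2 : ∀ t : ℝ, ‖deriv F (exp (φ * I) * (r * exp (t * I)))‖ ^ lam =
      ‖1 - ((r⁻¹ : ℝ) * ec t) * (deriv (pw (fun n => b n * ((exp (φ * I))⁻¹) ^ (n + 1)))
        ((r⁻¹ : ℝ) * ec t) * ((r⁻¹ : ℝ) * ec t))‖ ^ lam := by
    intro t
    set z : ℂ := r * exp (t * I) with hz
    have hzn : ‖z‖ = r := by
      rw [hz, norm_mul, norm_exp_ofReal_mul_I, mul_one, norm_real, Real.norm_eq_abs,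
        abs_of_pos hr0]
    have hz1 : 1 < ‖z‖ := by rw [hzn]; linarith
    have hzi : z⁻¹ = (r⁻¹ : ℝ) * ec t := by
      have := inv_ec r⁻¹ t
      rw [inv_inv] at this
      rw [hz, ← this, inv_inv]
    have h3 := (hN.sig.hasDerivAt hz1)
    have h4 : HasDerivAt (fun z => (exp (φ * I))⁻¹ * F (exp (φ * I) * z))
        (deriv F (exp (φ * I) * z)) z := by
      have hz2 : 1 < ‖exp (φ * I) * z‖ := by
        rw [norm_mul, norm_exp_ofReal_mul_I, one_mul]; exact hz1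
      have h5 : HasDerivAt (fun z : ℂ => exp (φ * I) * z) (exp (φ * I) * 1) z :=
        (hasDerivAt_id z).const_mul _
      have h6 := ((h.differentiableAt hz2).hasDerivAt.comp z h5).const_mul ((exp (φ * I))⁻¹)
      refine h6.congr_deriv ?_
      have : exp (φ * I) ≠ 0 := exp_ne_zero _
      field_simp
    rw [h4.unique h3, hzi]
    congr 2
    have : (z ^ 2)⁻¹ = ((r⁻¹ : ℝ) * ec t) ^ 2 := by rw [← hzi, inv_pow]
    rw [this]; ring
  rw [← integral_rot (g := deriv F) φ]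
  simp_rw [h2]
  exact h1

/-- the derivative: maximum and uniqueness in the class Sigma -/
theorem sigma_deriv_of {lam r : ℝ} (hl : 0 < lam) (hr1 : 1 < r) (H : IntD (lam / 2) r⁻¹) :
    IsGreatest {x : ℝ | ∃ F : ℂ → ℂ, ClassSigma F ∧ x = integralMean lam r (deriv F)}
      (integralMean lam r (fun z => 1 - (z ^ 2)⁻¹)) ∧
    ∀ F : ℂ → ℂ, ClassSigma F →
      (integralMean lam r (deriv F) = integralMean lam r (fun z => 1 - (z ^ 2)⁻¹) ↔
        ∃ c : ℂ, ‖c‖ = 1 ∧ ∀ z : ℂ, 1 < ‖z‖ → F z = z + c / z) := by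
  have hJ0 : integralMean lam r (deriv fun z : ℂ => z + z⁻¹) =
      integralMean lam r (fun z => 1 - (z ^ 2)⁻¹) :=
    integralMean_deriv_rotJ (c := 1) (by simp) (fun z _ => by rw [one_div]) hr1
  have hJ : integralMean lam r (fun z => 1 - (z ^ 2)⁻¹) =
      ((2 * π)⁻¹ * (Mo (lam / 2) ((r⁻¹) ^ 2))) ^ (1 / lam) := by
    rw [← hJ0, integralMean_eq, J_deriv_moment hr1]
  refine ⟨⟨⟨_, classSigma_J, hJ0.symm⟩, ?_⟩, ?_⟩
  · rintro x ⟨F, hF, rfl⟩
    obtain ⟨b, hb⟩ := hF.isSig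
    rw [hJ]
    exact (integralMean_mono hl).1 (IsSig_deriv_le_of hb hr1 H).1
  · intro F hF
    obtain ⟨b, hb⟩ := hF.isSig
    constructor
    · intro he
      by_cases h1 : ‖b 1‖ < 1
      · exfalso
        have := (integralMean_mono hl).2 ((IsSig_deriv_le_of hb hr1 H).2 h1)
        rw [← hJ, he] at this
        exact lt_irrefl _ this
      · exact ⟨b 1, hb.eq_of_norm_one h1⟩
    · rintro ⟨c, hc, hFc⟩
      exact integralMean_deriv_rotJ hc hFc hr1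

theorem IsSig_le_of (h : IsSig F b) {lam r : ℝ} (hr : 1 < r) (H : IntF (lam / 2) r⁻¹) :
    ∫ t in (-π)..π, ‖F (r * exp (t * I))‖ ^ lam ≤ r ^ lam * Mo (lam / 2) ((r⁻¹) ^ 2) ∧
    (‖b 1‖ < 1 →
      ∫ t in (-π)..π, ‖F (r * exp (t * I))‖ ^ lam < r ^ lam * Mo (lam / 2) ((r⁻¹) ^ 2)) := by
  obtain ⟨φ, hN⟩ := exists_rot h
  have hr0 : 0 < r := by linarith
  have hx0 : 0 < r⁻¹ := inv_pos.2 hr0
  have hx1 : r⁻¹ < 1 := inv_lt_one_of_one_lt₀ hr
  have h1 := H _ _ _ hN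
  rw [show 2 * (lam / 2) = lam by ring] at h1
  have h2 : ∀ t : ℝ, ‖F (exp (φ * I) * (r * exp (t * I)))‖ ^ lam = r ^ lam *
      ‖1 + ((r⁻¹ : ℝ) * ec t) * pw (fun n => b n * ((exp (φ * I))⁻¹) ^ (n + 1))
        ((r⁻¹ : ℝ) * ec t)‖ ^ lam := by
    intro t
    have h3 := hN.sig.norm_circle hx0 hx1 t
    rw [inv_inv] at h3
    have h4 : ‖(exp (φ * I))⁻¹ * F (exp (φ * I) * (r * exp (t * I)))‖ =
        ‖F (exp (φ * I) * (r * exp (t * I)))‖ := by
      rw [norm_mul, norm_inv, norm_exp_ofReal_mul_I]; simp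
    rw [← h4, h3, Real.mul_rpow hr0.le (norm_nonneg _)]
  rw [← integral_rot (g := F) φ]
  simp_rw [h2]
  rw [intervalIntegral.integral_const_mul]
  exact ⟨mul_le_mul_of_nonneg_left h1.1 (by positivity),
    fun hb => mul_lt_mul_of_pos_left (h1.2 hb) (by positivity)⟩

/-- the functions themselves: maximum and uniqueness in the class Sigma -/
theorem sigma_of {lam r : ℝ} (hl : 0 < lam) (hr1 : 1 < r) (H : IntF (lam / 2) r⁻¹) :
    IsGreatest {x : ℝ | ∃ F : ℂ → ℂ, ClassSigma F ∧ x = integralMean lam r F}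
      (integralMean lam r (fun z => z + z⁻¹)) ∧
    ∀ F : ℂ → ℂ, ClassSigma F →
      (integralMean lam r F = integralMean lam r (fun z => z + z⁻¹) ↔
        ∃ c : ℂ, ‖c‖ = 1 ∧ ∀ z : ℂ, 1 < ‖z‖ → F z = z + c / z) := by
  have hJ : integralMean lam r (fun z => z + z⁻¹) =
      ((2 * π)⁻¹ * (r ^ lam * Mo (lam / 2) ((r⁻¹) ^ 2))) ^ (1 / lam) := by
    rw [integralMean_eq, J_moment hr1]
  refine ⟨⟨⟨_, classSigma_J, rfl⟩, ?_⟩, ?_⟩
  · rintro x ⟨F, hF, rfl⟩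
    obtain ⟨b, hb⟩ := hF.isSig
    rw [hJ]
    exact (integralMean_mono hl).1 (IsSig_le_of hb hr1 H).1
  · intro F hF
    obtain ⟨b, hb⟩ := hF.isSig
    constructor
    · intro he
      by_cases h1 : ‖b 1‖ < 1
      · exfalso
        have := (integralMean_mono hl).2 ((IsSig_le_of hb hr1 H).2 h1)
        rw [← hJ, he] at this
        exact lt_irrefl _ this
      · exact ⟨b 1, hb.eq_of_norm_one h1⟩
    · rintro ⟨c, hc, hFc⟩
      exact integralMean_rotJ hc hFc hr1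

end Pool.Agent.H15.DP
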